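import Mathlib

/-!
# Embedding sparse graphs in complements of triangle-free graphs (MP_c6effb_co)

Notation: `G` is a graph on `V`, `A` a finite set of vertices of `G`; `H` is a triangle-free graph on
`W`, `B` a finite set of vertices of `H`.  `EmbIn G A H B`: the graph `G[A]` embeds in the complement
of `H[B]`.
-/

set_option autoImplicit false
set_option linter.unusedSectionVars false

namespace Pool.Agent.Lib_helper53.TriMad

open Finset

variable {V W : Type} [DecidableEq V] [DecidableEq W]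

/-- no triangle -/
def TF (H : SimpleGraph W) : Prop := ∀ a b c, H.Adj a b → H.Adj b c → ¬ H.Adj a c

open Classical in
/-- neighbours of `v` in `A` -/
noncomputable def nb (G : SimpleGraph V) (A : Finset V) (v : V) : Finset V :=
  A.filter (fun u => G.Adj v u)

/-- degree of `v` in `A` -/
noncomputable def dg (G : SimpleGraph V) (A : Finset V) (v : V) : ℕ := (nb G A v).card

/-- twice the number of edges inside `A` -/
noncomputable def D (G : SimpleGraph V) (A : Finset V) : ℕ := ∑ v ∈ A, dg G A v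

/-- `G[A]` embeds in the complement of `H[B]` -/
def EmbIn (G : SimpleGraph V) (A : Finset V) (H : SimpleGraph W) (B : Finset W) : Prop :=
  ∃ f : V → W, Set.InjOn f A ∧ (∀ a ∈ A, f a ∈ B) ∧
    ∀ a ∈ A, ∀ b ∈ A, G.Adj a b → ¬ H.Adj (f a) (f b)

/-- no edge of `H` inside `p` -/
def Ind (H : SimpleGraph W) (p : W → Prop) : Prop := ∀ a b, H.Adj a b → ¬ (p a ∧ p b)

/-- two independent sets never cover `Z` -/
def Cov1 (H : SimpleGraph W) (Z : Finset W) : Prop :=
  ∀ p q : W → Prop, Ind H p → Ind H q → ∃ w ∈ Z, ¬ p w ∧ ¬ q w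

/-- two independent sets always miss two elements of `Z` -/
def Cov2 (H : SimpleGraph W) (Z : Finset W) : Prop :=
  ∀ p q : W → Prop, Ind H p → Ind H q →
    ∃ w ∈ Z, ∃ w' ∈ Z, w ≠ w' ∧ (¬ p w ∧ ¬ q w) ∧ ¬ p w' ∧ ¬ q w'

omit [DecidableEq V] in
theorem mem_nb {G : SimpleGraph V} {A : Finset V} {v u : V} :
    u ∈ nb G A v ↔ u ∈ A ∧ G.Adj v u := by
  simp only [nb, mem_filter]

theorem dg_erase_adj {G : SimpleGraph V} {A : Finset V} {a v : V} (hv : v ∈ A)
    (h : G.Adj a v) : dg G A a = dg G (A.erase v) a + 1 := by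
  unfold dg
  have h1 : nb G (A.erase v) a = (nb G A a).erase v := by
    ext u
    rw [mem_nb, mem_erase, mem_erase, mem_nb]
    tauto
  rw [h1, card_erase_add_one (mem_nb.2 ⟨hv, h⟩)]

theorem dg_erase_not {G : SimpleGraph V} {A : Finset V} {a v : V}
    (h : ¬ G.Adj a v) : dg G A a = dg G (A.erase v) a := by
  unfold dg
  congr 1
  ext u
  rw [mem_nb, mem_nb, mem_erase]
  constructor
  · rintro ⟨h1, h2⟩
    exact ⟨⟨fun h' => h (h' ▸ h2), h1⟩, h2⟩
  · rintro ⟨⟨_, h1⟩, h2⟩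
    exact ⟨h1, h2⟩

theorem D_erase {G : SimpleGraph V} {A : Finset V} {v : V} (hv : v ∈ A) :
    D G A = D G (A.erase v) + 2 * dg G A v := by
  classical
  unfold D
  rw [← add_sum_erase A _ hv]
  have h1 : ∀ a ∈ A.erase v, dg G A a = dg G (A.erase v) a + if G.Adj a v then 1 else 0 := by
    intro a _
    by_cases h : G.Adj a v
    · rw [if_pos h, dg_erase_adj hv h]
    · rw [if_neg h, add_zero, dg_erase_not h]
  rw [sum_congr rfl h1, sum_add_distrib, ← card_filter]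
  have h2 : (filter (fun a => G.Adj a v) (A.erase v)) = nb G A v := by
    ext u
    rw [mem_filter, mem_erase, mem_nb]
    constructor
    · rintro ⟨⟨_, h1⟩, h2⟩
      exact ⟨h1, h2.symm⟩
    · rintro ⟨h1, h2⟩
      exact ⟨⟨h2.ne', h1⟩, h2.symm⟩
  rw [h2]
  unfold dg
  omega

/-- removing an independent set -/
theorem D_sdiff {G : SimpleGraph V} {A : Finset V} (X : Finset V) (hX : X ⊆ A)
    (hi : ∀ v ∈ X, ∀ v' ∈ X, ¬ G.Adj v v') :
    D G A = D G (A \ X) + 2 * ∑ v ∈ X, dg G A v := by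
  induction X using Finset.induction_on with
  | empty => simp
  | insert v X hv ih =>
    have ih' := ih (fun a ha => hX (mem_insert_of_mem ha))
      (fun a ha b hb => hi a (mem_insert_of_mem ha) b (mem_insert_of_mem hb))
    have hvA : v ∈ A \ X := mem_sdiff.2 ⟨hX (mem_insert_self _ _), hv⟩
    have h1 : A \ insert v X = (A \ X).erase v := by
      ext u
      simp only [mem_sdiff, mem_insert, mem_erase]
      tauto
    have h2 : dg G (A \ X) v = dg G A v := by
      unfold dg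
      congr 1
      ext u
      rw [mem_nb, mem_nb, mem_sdiff]
      constructor
      · rintro ⟨⟨h1, _⟩, h2⟩
        exact ⟨h1, h2⟩
      · rintro ⟨h1, h2⟩
        exact ⟨⟨h1, fun h => hi v (mem_insert_self _ _) u (mem_insert_of_mem h) h2⟩, h2⟩
    rw [sum_insert hv, h1, ih', D_erase hvA, h2]
    ring

theorem D_even (G : SimpleGraph V) (A : Finset V) : Even (D G A) := by
  induction A using Finset.strongInduction with
  | H A ih =>
    rcases A.eq_empty_or_nonempty with rfl | ⟨v, hv⟩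
    · simp [D]
    · rw [D_erase hv]
      exact (ih _ (erase_ssubset hv)).add (even_two_mul _)

omit [DecidableEq V] in
theorem Cov2.cov1 {H : SimpleGraph W} {Z : Finset W} (h : Cov2 H Z) : Cov1 H Z := by
  intro p q hp hq
  obtain ⟨w, hw, _, _, _, h1, _⟩ := h p q hp hq
  exact ⟨w, hw, h1⟩

theorem ind_nb {H : SimpleGraph W} (hT : TF H) (x : W) : Ind H (fun w => H.Adj x w) := by
  rintro a b hab ⟨h1, h2⟩
  exact hT x a b h1 hab h2

theorem ind_star {H : SimpleGraph W} (hT : TF H) (y x : W) :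
    Ind H (fun w => ¬ H.Adj y w ∧ (w = y ∨ H.Adj x w)) := by
  rintro a b hab ⟨⟨h1, h2⟩, h3, h4⟩
  rcases h2 with rfl | h2
  · exact h3 hab
  · rcases h4 with rfl | h4
    · exact h1 hab.symm
    · exact hT x a b h2 hab h4

theorem Cov1.star {H : SimpleGraph W} (hT : TF H) {Z : Finset W} (h : Cov1 H Z) (y x : W) :
    ∃ w ∈ Z, w ≠ y ∧ ¬ H.Adj y w ∧ ¬ H.Adj x w := by
  obtain ⟨w, hw, h1, h2⟩ := h _ _ (ind_nb hT y) (ind_star hT y x)
  refine ⟨w, hw, fun h' => h2 ⟨h1, Or.inl h'⟩, h1, fun h' => h2 ⟨h1, Or.inr h'⟩⟩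

theorem Cov2.star {H : SimpleGraph W} (hT : TF H) {Z : Finset W} (h : Cov2 H Z) (y x : W) :
    ∃ w ∈ Z, ∃ w' ∈ Z, w ≠ w' ∧ (w ≠ y ∧ ¬ H.Adj y w ∧ ¬ H.Adj x w) ∧
      w' ≠ y ∧ ¬ H.Adj y w' ∧ ¬ H.Adj x w' := by
  obtain ⟨w, hw, w', hw', hne, ⟨h1, h2⟩, h3, h4⟩ := h _ _ (ind_nb hT y) (ind_star hT y x)
  exact ⟨w, hw, w', hw', hne, ⟨fun h' => h2 ⟨h1, Or.inl h'⟩, h1, fun h' => h2 ⟨h1, Or.inr h'⟩⟩,
    fun h' => h4 ⟨h3, Or.inl h'⟩, h3, fun h' => h4 ⟨h3, Or.inr h'⟩⟩

/-- injections between finite sets -/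
theorem exists_inj [Nonempty W] (X : Finset V) (Y : Finset W) (h : X.card ≤ Y.card) :
    ∃ f : V → W, Set.InjOn f X ∧ ∀ a ∈ X, f a ∈ Y := by
  classical
  obtain ⟨e⟩ : Nonempty (X ↪ Y) := Function.Embedding.nonempty_of_card_le (by simpa using h)
  refine ⟨fun a => if h : a ∈ X then (e ⟨a, h⟩ : W) else Classical.arbitrary W, ?_, ?_⟩
  · intro a ha b hb hab
    have ha' : a ∈ X := ha
    have hb' : b ∈ X := hb
    simp only [dif_pos ha', dif_pos hb'] at hab
    have := e.injective (Subtype.ext hab)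
    exact congrArg Subtype.val this
  · intro a ha
    simp only [dif_pos ha]
    exact (e ⟨a, ha⟩).2

/-- injections between finite sets, respecting subsets -/
theorem exists_inj2 [Nonempty W] (X X' : Finset V) (Y Y' : Finset W) (hX : X' ⊆ X)
    (hY : Y' ⊆ Y) (h : X.card ≤ Y.card) (h' : X'.card ≤ Y'.card) :
    ∃ f : V → W, Set.InjOn f X ∧ (∀ a ∈ X, f a ∈ Y) ∧ ∀ a ∈ X', f a ∈ Y' := by
  classical
  obtain ⟨Y1, hY1, hc⟩ := exists_subset_card_eq h'
  obtain ⟨f1, hf1, hf1'⟩ := exists_inj X' Y1 hc.ge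
  have h2 : (X \ X').card ≤ (Y \ Y1).card := by
    rw [card_sdiff_of_subset hX, card_sdiff_of_subset (hY1.trans hY), hc]
    omega
  obtain ⟨f2, hf2, hf2'⟩ := exists_inj (X \ X') (Y \ Y1) h2
  have hm1 : ∀ a ∈ X', (if a ∈ X' then f1 a else f2 a) ∈ Y1 := by
    intro a ha
    rw [if_pos ha]
    exact hf1' a ha
  have hm2 : ∀ a ∈ X, a ∉ X' → (if a ∈ X' then f1 a else f2 a) ∈ Y \ Y1 := by
    intro a ha ha'
    rw [if_neg ha']
    exact hf2' a (mem_sdiff.2 ⟨ha, ha'⟩)
  refine ⟨fun a => if a ∈ X' then f1 a else f2 a, ?_, ?_, ?_⟩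
  · intro a ha b hb hab
    have ha0 : a ∈ X := ha
    have hb0 : b ∈ X := hb
    have hab' : (if a ∈ X' then f1 a else f2 a) = (if b ∈ X' then f1 b else f2 b) := hab
    by_cases ha' : a ∈ X' <;> by_cases hb' : b ∈ X'
    · rw [if_pos ha', if_pos hb'] at hab'
      exact hf1 ha' hb' hab'
    · exact absurd (hab' ▸ hm1 a ha') (mem_sdiff.1 (hm2 b hb0 hb')).2
    · exact absurd (hab'.symm ▸ hm1 b hb') (mem_sdiff.1 (hm2 a ha0 ha')).2
    · rw [if_neg ha', if_neg hb'] at hab'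
      exact hf2 (mem_sdiff.2 ⟨ha0, ha'⟩) (mem_sdiff.2 ⟨hb0, hb'⟩) hab'
  · intro a ha
    by_cases ha' : a ∈ X'
    · exact hY (hY1 (hm1 a ha'))
    · exact (mem_sdiff.1 (hm2 a ha ha')).1
  · intro a ha
    exact hY1 (hm1 a ha)

/-- a large independent set -/
theorem emb_indep [Nonempty W] {G : SimpleGraph V} {A : Finset V} {H : SimpleGraph W}
    {B I : Finset W} (hI : I ⊆ B) (hi : ∀ a ∈ I, ∀ b ∈ I, ¬ H.Adj a b) (h : A.card ≤ I.card) :
    EmbIn G A H B := by
  obtain ⟨f, hf, hf'⟩ := exists_inj A I h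
  exact ⟨f, hf, fun a ha => hI (hf' a ha), fun a ha b hb _ => hi _ (hf' a ha) _ (hf' b hb)⟩

/-- a subset with small sum -/
theorem exists_low (A : Finset V) (d : V → ℕ) (t : ℕ) (ht : t ≤ A.card) :
    ∃ T ⊆ A, T.card = t ∧ A.card * ∑ v ∈ T, d v ≤ t * ∑ v ∈ A, d v := by
  induction h : A.card - t generalizing t with
  | zero =>
    have : t = A.card := by omega
    subst this
    exact ⟨A, Subset.rfl, rfl, le_rfl⟩
  | succ n ih =>
    obtain ⟨T, hTA, hTc, hT⟩ := ih (t + 1) (by omega) (by omega)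
    have hne : T.Nonempty := by
      rw [← card_pos]
      omega
    obtain ⟨x, hx, hmax⟩ := exists_max_image T d hne
    have h1 : ∑ v ∈ T, d v ≤ T.card * d x := by
      rw [← smul_eq_mul]
      exact sum_le_card_nsmul T d (d x) hmax
    have h2 : d x + ∑ v ∈ T.erase x, d v = ∑ v ∈ T, d v := add_sum_erase T d hx
    refine ⟨T.erase x, (erase_subset _ _).trans hTA, ?_, ?_⟩
    · rw [card_erase_of_mem hx]
      omega
    · rw [hTc] at h1
      have h3 : (t + 1) * ∑ v ∈ T.erase x, d v ≤ t * ∑ v ∈ T, d v := by nlinarith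
      have h4 : (t + 1) * (A.card * ∑ v ∈ T.erase x, d v) ≤ (t + 1) * (t * ∑ v ∈ A, d v) := by
        calc (t + 1) * (A.card * ∑ v ∈ T.erase x, d v)
            = A.card * ((t + 1) * ∑ v ∈ T.erase x, d v) := by ring
          _ ≤ A.card * (t * ∑ v ∈ T, d v) := Nat.mul_le_mul_left _ h3
          _ = t * (A.card * ∑ v ∈ T, d v) := by ring
          _ ≤ t * ((t + 1) * ∑ v ∈ A, d v) := Nat.mul_le_mul_left _ hT
          _ = (t + 1) * (t * ∑ v ∈ A, d v) := by ring
      exact Nat.le_of_mul_le_mul_left h4 (Nat.succ_pos t)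

end Pool.Agent.Lib_helper53.TriMad
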