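import Pool.Agent.Lib_helper53.TriMad.Basic

/-!
# Five-cycles in maximal triangle-free graphs (MP_c6effb_co)
-/

set_option autoImplicit false
set_option linter.unusedSectionVars false

namespace Pool.Agent.Lib_helper53.TriMad

open Finset

variable {V W : Type} [DecidableEq V] [DecidableEq W]

/-- a 5-cycle of `H` in `B` -/
structure C5 (H : SimpleGraph W) (B : Finset W) (z0 z1 z2 z3 z4 : W) : Prop where
  m0 : z0 ∈ B
  m1 : z1 ∈ B
  m2 : z2 ∈ B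
  m3 : z3 ∈ B
  m4 : z4 ∈ B
  a01 : H.Adj z0 z1
  a12 : H.Adj z1 z2
  a23 : H.Adj z2 z3
  a34 : H.Adj z3 z4
  a40 : H.Adj z4 z0

/-- non-adjacent vertices of `B` have a common neighbour in `B` -/
def Mx (H : SimpleGraph W) (B : Finset W) : Prop :=
  ∀ p ∈ B, ∀ q ∈ B, p ≠ q → ¬ H.Adj p q → ∃ r ∈ B, H.Adj p r ∧ H.Adj q r

variable {H : SimpleGraph W} {B : Finset W} {z0 z1 z2 z3 z4 : W}

theorem C5.rot (h : C5 H B z0 z1 z2 z3 z4) : C5 H B z1 z2 z3 z4 z0 :=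
  ⟨h.m1, h.m2, h.m3, h.m4, h.m0, h.a12, h.a23, h.a34, h.a40, h.a01⟩

theorem C5.miss (h : C5 H B z0 z1 z2 z3 z4) {p q : W → Prop} (hp : Ind H p) (hq : Ind H q) :
    ∃ w, (w = z0 ∨ w = z1 ∨ w = z2 ∨ w = z3 ∨ w = z4) ∧ ¬ p w ∧ ¬ q w := by
  by_contra hcon
  push Not at hcon
  by_cases h0 : p z0
  · have h1 := hcon z1 (Or.inr (Or.inl rfl)) (fun h' => hp _ _ h.a01 ⟨h0, h'⟩)
    have h2 : p z2 := by
      by_contra h2
      exact hq _ _ h.a12 ⟨h1, hcon z2 (Or.inr (Or.inr (Or.inl rfl))) h2⟩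
    have h3 := hcon z3 (Or.inr (Or.inr (Or.inr (Or.inl rfl)))) (fun h' => hp _ _ h.a23 ⟨h2, h'⟩)
    have h4 : p z4 := by
      by_contra h4
      exact hq _ _ h.a34 ⟨h3, hcon z4 (Or.inr (Or.inr (Or.inr (Or.inr rfl)))) h4⟩
    exact hp _ _ h.a40 ⟨h4, h0⟩
  · have g0 := hcon z0 (Or.inl rfl) h0
    have h1 : p z1 := by
      by_contra h1
      exact hq _ _ h.a01 ⟨g0, hcon z1 (Or.inr (Or.inl rfl)) h1⟩
    have h2 := hcon z2 (Or.inr (Or.inr (Or.inl rfl))) (fun h' => hp _ _ h.a12 ⟨h1, h'⟩)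
    have h3 : p z3 := by
      by_contra h3
      exact hq _ _ h.a23 ⟨h2, hcon z3 (Or.inr (Or.inr (Or.inr (Or.inl rfl)))) h3⟩
    have h4 := hcon z4 (Or.inr (Or.inr (Or.inr (Or.inr rfl)))) (fun h' => hp _ _ h.a34 ⟨h3, h'⟩)
    exact hq _ _ h.a40 ⟨h4, g0⟩

theorem C5.cov1 (h : C5 H B z0 z1 z2 z3 z4) :
    ∃ Z ⊆ B, Z.card ≤ 5 ∧ Cov1 H Z := by
  refine ⟨[z0, z1, z2, z3, z4].toFinset, ?_, List.toFinset_card_le _, ?_⟩
  · intro w hw
    simp only [List.mem_toFinset, List.mem_cons, List.not_mem_nil, or_false] at hw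
    rcases hw with rfl | rfl | rfl | rfl | rfl
    exacts [h.m0, h.m1, h.m2, h.m3, h.m4]
  · intro p q hp hq
    obtain ⟨w, hw, h1, h2⟩ := h.miss hp hq
    refine ⟨w, ?_, h1, h2⟩
    simp only [List.mem_toFinset, List.mem_cons, List.not_mem_nil, or_false]
    exact hw

theorem oct2 (hT : TF H) (hM : Mx H B) (h : C5 H B z0 z1 z2 z3 z4) {p : W} (hp : p ∈ B)
    (h0 : H.Adj p z0) (h2 : ¬ H.Adj p z2) (h3 : ¬ H.Adj p z3) :
    ∃ Z ⊆ B, Z.card ≤ 8 ∧ Cov2 H Z := by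
  have n02 : ¬ H.Adj z0 z2 := hT _ _ _ h.a01 h.a12
  have n13 : ¬ H.Adj z1 z3 := hT _ _ _ h.a12 h.a23
  have n24 : ¬ H.Adj z2 z4 := hT _ _ _ h.a23 h.a34
  have n30 : ¬ H.Adj z3 z0 := hT _ _ _ h.a34 h.a40
  have n41 : ¬ H.Adj z4 z1 := hT _ _ _ h.a40 h.a01
  have np1 : ¬ H.Adj p z1 := hT _ _ _ h0 h.a01
  have np4 : ¬ H.Adj p z4 := hT _ _ _ h0 h.a40.symm
  have hp2 : p ≠ z2 := fun e => n02 (e ▸ h0.symm)
  have hp3 : p ≠ z3 := fun e => n30 (e ▸ h0)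
  obtain ⟨r, hr, hpr, h2r⟩ := hM p hp z2 h.m2 hp2 h2
  obtain ⟨t, ht, hpt, h3t⟩ := hM p hp z3 h.m3 hp3 h3
  have c2 : C5 H B p r z2 z3 t := ⟨hp, hr, h.m2, h.m3, ht, hpr, h2r.symm, h.a23, h3t, hpt.symm⟩
  have c3 : C5 H B p z0 z1 z2 r := ⟨hp, h.m0, h.m1, h.m2, hr, h0, h.a01, h.a12, h2r, hpr.symm⟩
  have c4 : C5 H B p z0 z4 z3 t :=
    ⟨hp, h.m0, h.m4, h.m3, ht, h0, h.a40.symm, h.a34.symm, h3t, hpt.symm⟩
  -- distinctness
  have d0p : z0 ≠ p := h0.ne'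
  have d1p : z1 ≠ p := fun e => h2 (e ▸ h.a12)
  have d2p : z2 ≠ p := hp2.symm
  have d3p : z3 ≠ p := hp3.symm
  have d4p : z4 ≠ p := fun e => h3 (e ▸ h.a34.symm)
  have d0r : z0 ≠ r := fun e => n02 (e ▸ h2r.symm)
  have d1r : z1 ≠ r := fun e => np1 (e ▸ hpr)
  have d3r : z3 ≠ r := fun e => h3 (e ▸ hpr)
  have d4r : z4 ≠ r := fun e => np4 (e ▸ hpr)
  have d0t : z0 ≠ t := fun e => n30 (e ▸ h3t)
  have d1t : z1 ≠ t := fun e => np1 (e ▸ hpt)
  have d2t : z2 ≠ t := fun e => h2 (e ▸ hpt)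
  have d4t : z4 ≠ t := fun e => np4 (e ▸ hpt)
  have d02 : z0 ≠ z2 := fun e => n30 (e ▸ h.a23.symm)
  have d03 : z0 ≠ z3 := fun e => n02 (e ▸ h.a23.symm)
  have d12 : z1 ≠ z2 := h.a12.ne
  have d13 : z1 ≠ z3 := fun e => n41 (e ▸ h.a34.symm)
  have d42 : z4 ≠ z2 := fun e => n41 (e ▸ h.a12.symm)
  have d43 : z4 ≠ z3 := h.a34.ne'
  have d23 : z2 ≠ z3 := h.a23.ne
  refine ⟨[z0, z1, z2, z3, z4, p, r, t].toFinset, ?_, List.toFinset_card_le _, ?_⟩
  · intro w hw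
    simp only [List.mem_toFinset, List.mem_cons, List.not_mem_nil, or_false] at hw
    rcases hw with rfl | rfl | rfl | rfl | rfl | rfl | rfl | rfl
    exacts [h.m0, h.m1, h.m2, h.m3, h.m4, hp, hr, ht]
  · intro p' q' hp' hq'
    obtain ⟨w1, hw1, hm1⟩ := h.miss hp' hq'
    obtain ⟨w2, hw2, hm2⟩ := c2.miss hp' hq'
    obtain ⟨w3, hw3, hm3⟩ := c3.miss hp' hq'
    obtain ⟨w4, hw4, hm4⟩ := c4.miss hp' hq'
    have m1 : w1 ∈ [z0, z1, z2, z3, z4, p, r, t].toFinset := by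
      rcases hw1 with e | e | e | e | e <;> rw [e] <;> simp
    have m2 : w2 ∈ [z0, z1, z2, z3, z4, p, r, t].toFinset := by
      rcases hw2 with e | e | e | e | e <;> rw [e] <;> simp
    have m3 : w3 ∈ [z0, z1, z2, z3, z4, p, r, t].toFinset := by
      rcases hw3 with e | e | e | e | e <;> rw [e] <;> simp
    have m4 : w4 ∈ [z0, z1, z2, z3, z4, p, r, t].toFinset := by
      rcases hw4 with e | e | e | e | e <;> rw [e] <;> simp
    by_cases e2 : w1 = w2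
    · by_cases e3 : w1 = w3
      · by_cases e4 : w1 = w4
        · exfalso
          subst e2 e3 e4
          rcases hw1 with rfl | rfl | rfl | rfl | rfl
          · rcases hw2 with e | e | e | e | e
            exacts [d0p e, d0r e, d02 e, d03 e, d0t e]
          · rcases hw2 with e | e | e | e | e
            exacts [d1p e, d1r e, d12 e, d13 e, d1t e]
          · rcases hw4 with e | e | e | e | e
            exacts [d2p e, d02 e.symm, d42 e.symm, d23 e, d2t e]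
          · rcases hw3 with e | e | e | e | e
            exacts [d3p e, d03 e.symm, d13 e.symm, d23 e.symm, d3r e]
          · rcases hw2 with e | e | e | e | e
            exacts [d4p e, d4r e, d42 e, d43 e, d4t e]
        · exact ⟨w1, m1, w4, m4, e4, hm1, hm4⟩
      · exact ⟨w1, m1, w3, m3, e3, hm1, hm3⟩
    · exact ⟨w1, m1, w2, m2, e2, hm1, hm2⟩

/-- `p` is adjacent to two vertices of the 5-cycle -/
def HasCl (H : SimpleGraph W) (z0 z1 z2 z3 z4 p : W) : Prop :=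
  (H.Adj p z4 ∧ H.Adj p z1) ∨ (H.Adj p z0 ∧ H.Adj p z2) ∨ (H.Adj p z1 ∧ H.Adj p z3) ∨
    (H.Adj p z2 ∧ H.Adj p z4) ∨ (H.Adj p z3 ∧ H.Adj p z0)

theorem exists_Z8 (hT : TF H) (hM : Mx H B) (h : C5 H B z0 z1 z2 z3 z4) {p : W} (hp : p ∈ B)
    (hn : ¬ HasCl H z0 z1 z2 z3 z4 p) : ∃ Z ⊆ B, Z.card ≤ 8 ∧ Cov2 H Z := by
  unfold HasCl at hn
  by_cases h0 : H.Adj p z0
  · exact oct2 hT hM h hp h0 (by tauto) (by tauto)
  by_cases h1 : H.Adj p z1
  · exact oct2 hT hM h.rot hp h1 (by tauto) (by tauto)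
  by_cases h2 : H.Adj p z2
  · exact oct2 hT hM h.rot.rot hp h2 (by tauto) (by tauto)
  by_cases h3 : H.Adj p z3
  · exact oct2 hT hM h.rot.rot.rot hp h3 (by tauto) (by tauto)
  by_cases h4 : H.Adj p z4
  · exact oct2 hT hM h.rot.rot.rot.rot hp h4 (by tauto) (by tauto)
  obtain ⟨q, hq, hpq, h0q⟩ := hM p hp z0 h.m0 (fun e => h1 (e ▸ h.a01)) h0
  by_cases hq2 : H.Adj q z2
  · have c : C5 H B q z2 z3 z4 z0 := ⟨hq, h.m2, h.m3, h.m4, h.m0, hq2, h.a23, h.a34, h.a40, h0q⟩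
    exact oct2 hT hM c hp hpq h3 h4
  by_cases hq3 : H.Adj q z3
  · have c : C5 H B q z0 z1 z2 z3 :=
      ⟨hq, h.m0, h.m1, h.m2, h.m3, h0q.symm, h.a01, h.a12, h.a23, hq3.symm⟩
    exact oct2 hT hM c hp hpq h1 h2
  exact oct2 hT hM h hq h0q.symm hq2 hq3

/-- class `i` with respect to the 5-cycle `z` -/
def Cl (H : SimpleGraph W) (z : Fin 5 → W) (i : Fin 5) (p : W) : Prop :=
  H.Adj p (z (i + 4)) ∧ H.Adj p (z (i + 1))

theorem Cl.nadj (hT : TF H) {z : Fin 5 → W} {i j : Fin 5} {p q : W} (hp : Cl H z i p)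
    (hq : Cl H z j q) (h1 : j ≠ i + 1) (h4 : j ≠ i + 4) : ¬ H.Adj p q := by
  have key : ∀ i j : Fin 5, j ≠ i + 1 → j ≠ i + 4 → j = i ∨ j = i + 2 ∨ j = i + 3 := by decide
  have k2 : ∀ i : Fin 5, i + 2 + 4 = i + 1 := by decide
  have k3 : ∀ i : Fin 5, i + 3 + 1 = i + 4 := by decide
  rcases key i j h1 h4 with rfl | rfl | rfl
  · exact hT _ _ _ hp.2 hq.2.symm
  · have := hq.1
    rw [k2] at this
    exact hT _ _ _ hp.2 this.symm
  · have := hq.2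
    rw [k3] at this
    exact hT _ _ _ hp.1 this.symm

/-- if every vertex of `B` is adjacent to two vertices of the 5-cycle, `G[A]` can be embedded -/
theorem emb_classes [Nonempty W] {G : SimpleGraph V} {A : Finset V} (hT : TF H)
    (hcl : ∀ p ∈ B, HasCl H z0 z1 z2 z3 z4 p)
    (hA : A.Nonempty) (hD : 2 * A.card ≤ D G A) (hB : 2 * A.card + D G A ≤ 2 * B.card) :
    EmbIn G A H B := by
  classical
  set z : Fin 5 → W := ![z0, z1, z2, z3, z4] with hz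
  have hcl' : ∀ p ∈ B, ∃ i, Cl H z i p := by
    intro p hp
    rcases hcl p hp with h | h | h | h | h
    · exact ⟨0, h⟩
    · exact ⟨1, h⟩
    · exact ⟨2, h⟩
    · exact ⟨3, h⟩
    · exact ⟨4, h⟩
  choose! cl hclp using hcl'
  set U : Fin 5 → Finset W := fun j => B.filter (fun p => cl p = j) with hU
  have hUB : ∀ j, U j ⊆ B := fun j => filter_subset _ _
  have hUm : ∀ j p, p ∈ U j → Cl H z j p := by
    intro j p hp
    rw [hU, mem_filter] at hp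
    have := hclp p hp.1
    rwa [hp.2] at this
  have hUn : ∀ i j p q, p ∈ U i → q ∈ U j → j ≠ i + 1 → j ≠ i + 4 → ¬ H.Adj p q :=
    fun i j p q hp hq => Cl.nadj hT (hUm i p hp) (hUm j q hq)
  have hUd : ∀ i j, i ≠ j → Disjoint (U i) (U j) := by
    intro i j hij
    rw [disjoint_left]
    intro p hp hq
    rw [hU, mem_filter] at hp hq
    exact hij (hp.2.symm.trans hq.2)
  have hsum : ∑ j : Fin 5, (U j).card = B.card :=
    (card_eq_sum_card_fiberwise (f := cl) (t := univ) (fun _ _ => mem_coe.2 (mem_univ _))).symm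
  obtain ⟨i0, -, hmax⟩ := exists_max_image (univ : Finset (Fin 5))
    (fun j => (U j).card + (U (j + 2)).card) univ_nonempty
  have hsum' : ∑ j : Fin 5, (U (i0 + j)).card = B.card := by
    rw [← hsum]
    exact Equiv.sum_comp (Equiv.addLeft i0) (fun j => (U j).card)
  rw [Fin.sum_univ_five] at hsum'
  have k : ∀ i : Fin 5, i + 0 = i ∧ i + 1 + 2 = i + 3 ∧ i + 2 + 2 = i + 4 ∧ i + 3 + 2 = i ∧
      i + 4 + 2 = i + 1 := by decide
  obtain ⟨k0, k1, k2, k3, k4⟩ := k i0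
  have m1 := hmax (i0 + 1) (mem_univ _)
  have m2 := hmax (i0 + 2) (mem_univ _)
  have m3 := hmax (i0 + 3) (mem_univ _)
  have m4 := hmax (i0 + 4) (mem_univ _)
  simp only [k1, k2, k3, k4] at m1 m2 m3 m4
  rw [k0] at hsum'
  -- the large independent set
  have hI : ∀ a ∈ U i0 ∪ U (i0 + 2), ∀ b ∈ U i0 ∪ U (i0 + 2), ¬ H.Adj a b := by
    have d : ∀ i : Fin 5, i ≠ i + 1 ∧ i ≠ i + 4 ∧ i + 2 ≠ i + 1 ∧ i + 2 ≠ i + 4 ∧
        i ≠ i + 2 + 1 ∧ i ≠ i + 2 + 4 ∧ i + 2 ≠ i + 2 + 1 ∧ i + 2 ≠ i + 2 + 4 := by decide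
    obtain ⟨d1, d2, d3, d4, d5, d6, d7, d8⟩ := d i0
    intro a ha b hb
    rw [mem_union] at ha hb
    rcases ha with ha | ha <;> rcases hb with hb | hb
    · exact hUn _ _ _ _ ha hb d1 d2
    · exact hUn _ _ _ _ ha hb d3 d4
    · exact hUn _ _ _ _ ha hb d5 d6
    · exact hUn _ _ _ _ ha hb d7 d8
  have hd02 : i0 ≠ i0 + 2 := by
    have : ∀ i : Fin 5, i ≠ i + 2 := by decide
    exact this i0
  have hd03 : i0 ≠ i0 + 3 ∧ i0 + 2 ≠ i0 + 3 := by
    have : ∀ i : Fin 5, i ≠ i + 3 ∧ i + 2 ≠ i + 3 := by decide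
    exact this i0
  have hIc : (U i0 ∪ U (i0 + 2)).card = (U i0).card + (U (i0 + 2)).card :=
    card_union_of_disjoint (hUd _ _ hd02)
  by_cases hs : A.card ≤ (U i0 ∪ U (i0 + 2)).card
  · exact emb_indep (union_subset (hUB _) (hUB _)) hI hs
  push Not at hs
  rw [hIc] at hs
  set s := (U i0).card + (U (i0 + 2)).card with hsdef
  set t := A.card - s with ht
  have hApos : 0 < A.card := card_pos.2 hA
  obtain ⟨T, hTA, hTc, hTs⟩ := exists_low A (dg G A) t (by omega)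
  have hTs' : A.card * ∑ v ∈ T, dg G A v ≤ t * D G A := hTs
  set S := ∑ v ∈ T, dg G A v with hS
  have hw0 : D G A + 4 * t ≤ 2 * (U i0).card + 2 * A.card := by omega
  have hw3 : t ≤ (U (i0 + 3)).card := by omega
  have ht2 : 2 * t ≤ A.card := by omega
  have hSw : S ≤ (U i0).card := by
    have e1 : A.card * (D G A + 4 * t) ≤ A.card * (2 * (U i0).card + 2 * A.card) :=
      Nat.mul_le_mul_left _ hw0
    obtain ⟨y, hy⟩ := Nat.exists_eq_add_of_le hD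
    have e2 : A.card * S ≤ A.card * (U i0).card := by
      rw [hy] at e1 hTs'
      have e3 : 2 * t * y ≤ A.card * y := Nat.mul_le_mul_right _ ht2
      have e4 : A.card * (2 * A.card + y + 4 * t)
          = 2 * (A.card * A.card) + A.card * y + 4 * (A.card * t) := by ring
      have e5 : A.card * (2 * (U i0).card + 2 * A.card)
          = 2 * (A.card * (U i0).card) + 2 * (A.card * A.card) := by ring
      have e6 : t * (2 * A.card + y) = 2 * (A.card * t) + t * y := by ring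
      have e7 : 2 * t * y = 2 * (t * y) := by ring
      rw [e4, e5] at e1
      rw [e6] at hTs'
      rw [e7] at e3
      omega
    exact Nat.le_of_mul_le_mul_left e2 hApos
  set N : Finset V := (A \ T).filter (fun a => ∃ u ∈ T, G.Adj u a) with hN
  have hNc : N.card ≤ S := by
    have h1 : N ⊆ T.biUnion (nb G A) := by
      intro a ha
      rw [hN, mem_filter, mem_sdiff] at ha
      obtain ⟨u, hu, hadj⟩ := ha.2
      exact mem_biUnion.2 ⟨u, hu, mem_nb.2 ⟨ha.1.1, hadj⟩⟩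
    exact (card_le_card h1).trans card_biUnion_le
  obtain ⟨f1, hf1, hf1'⟩ := exists_inj T (U (i0 + 3)) (by omega)
  obtain ⟨f2, hf2, hf2', hf2N⟩ := exists_inj2 (A \ T) N (U i0 ∪ U (i0 + 2)) (U i0)
    (filter_subset _ _) subset_union_left
    (by rw [card_sdiff_of_subset hTA, hIc]; omega) (hNc.trans hSw)
  have hdis : ∀ p, p ∈ U (i0 + 3) → p ∉ U i0 ∪ U (i0 + 2) := by
    intro p hp hq
    rw [mem_union] at hq
    rcases hq with hq | hq
    · exact disjoint_left.1 (hUd _ _ hd03.1) hq hp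
    · exact disjoint_left.1 (hUd _ _ hd03.2) hq hp
  have g1 : ∀ a ∈ T, (if a ∈ T then f1 a else f2 a) = f1 a := fun a ha => if_pos ha
  have g2 : ∀ a, a ∉ T → (if a ∈ T then f1 a else f2 a) = f2 a := fun a ha => if_neg ha
  refine ⟨fun a => if a ∈ T then f1 a else f2 a, ?_, ?_, ?_⟩
  · intro a ha b hb hab
    have ha0 : a ∈ A := ha
    have hb0 : b ∈ A := hb
    have hab' : (if a ∈ T then f1 a else f2 a) = (if b ∈ T then f1 b else f2 b) := hab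
    by_cases ha' : a ∈ T <;> by_cases hb' : b ∈ T
    · rw [g1 a ha', g1 b hb'] at hab'
      exact hf1 ha' hb' hab'
    · rw [g1 a ha', g2 b hb'] at hab'
      exact absurd (hab' ▸ hf2' b (mem_sdiff.2 ⟨hb0, hb'⟩)) (hdis _ (hf1' a ha'))
    · rw [g2 a ha', g1 b hb'] at hab'
      exact absurd (hab'.symm ▸ hf2' a (mem_sdiff.2 ⟨ha0, ha'⟩)) (hdis _ (hf1' b hb'))
    · rw [g2 a ha', g2 b hb'] at hab'
      exact hf2 (mem_coe.2 (mem_sdiff.2 ⟨ha0, ha'⟩)) (mem_coe.2 (mem_sdiff.2 ⟨hb0, hb'⟩)) hab'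
  · intro a ha
    show (if a ∈ T then f1 a else f2 a) ∈ B
    by_cases ha' : a ∈ T
    · rw [g1 a ha']
      exact hUB _ (hf1' a ha')
    · rw [g2 a ha']
      exact union_subset (hUB _) (hUB _) (hf2' a (mem_sdiff.2 ⟨ha, ha'⟩))
  · intro a ha b hb hab
    show ¬ H.Adj (if a ∈ T then f1 a else f2 a) (if b ∈ T then f1 b else f2 b)
    have d : ∀ i : Fin 5, i + 3 ≠ i + 3 + 1 ∧ i + 3 ≠ i + 3 + 4 ∧ i ≠ i + 3 + 1 ∧
        i ≠ i + 3 + 4 := by decide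
    obtain ⟨d1, d2, d3, d4⟩ := d i0
    by_cases ha' : a ∈ T <;> by_cases hb' : b ∈ T
    · rw [g1 a ha', g1 b hb']
      exact hUn _ _ _ _ (hf1' a ha') (hf1' b hb') d1 d2
    · rw [g1 a ha', g2 b hb']
      exact hUn _ _ _ _ (hf1' a ha') (hf2N b (by
        rw [hN, mem_filter, mem_sdiff]
        exact ⟨⟨hb, hb'⟩, a, ha', hab⟩)) d3 d4
    · rw [g2 a ha', g1 b hb']
      intro hadj
      exact hUn _ _ _ _ (hf1' b hb') (hf2N a (by
        rw [hN, mem_filter, mem_sdiff]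
        exact ⟨⟨ha, ha'⟩, b, hb', hab.symm⟩)) d3 d4 hadj.symm
    · rw [g2 a ha', g2 b hb']
      exact hI _ (hf2' a (mem_sdiff.2 ⟨ha, ha'⟩)) _ (hf2' b (mem_sdiff.2 ⟨hb, hb'⟩))

end Pool.Agent.Lib_helper53.TriMad
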