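import Pool.Agent.Lib_helper53.TriMad.Red

/-!
# Discharging and the main theorem (MP_c6effb_co)
-/

set_option autoImplicit false
set_option linter.unusedSectionVars false

namespace Pool.Agent.Lib_helper53.TriMad

open Finset

variable {V W : Type} [DecidableEq V] [DecidableEq W]
variable {G : SimpleGraph V} {A : Finset V} {H : SimpleGraph W} {B : Finset W}

/-- a triangle-free graph extends to a maximal one (on `B`) -/
theorem exists_max [Fintype W] (hT : TF H) (B : Finset W) :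
    ∃ K : SimpleGraph W, TF K ∧ Mx K B ∧ ∀ a ∈ B, ∀ b ∈ B, H.Adj a b → K.Adj a b := by
  classical
  set S : Set (SimpleGraph W) := {K | TF K ∧ (∀ a b, K.Adj a b → a ∈ B ∧ b ∈ B) ∧
    ∀ a ∈ B, ∀ b ∈ B, H.Adj a b → K.Adj a b} with hS
  let K0 : SimpleGraph W :=
    { Adj := fun a b => H.Adj a b ∧ a ∈ B ∧ b ∈ B
      symm := ⟨fun a b h => ⟨h.1.symm, h.2.2, h.2.1⟩⟩
      loopless := ⟨fun a h => h.1.ne rfl⟩ }
  have hK0 : K0 ∈ S := by
    refine ⟨?_, ?_, ?_⟩
    · intro a b c h1 h2 h3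
      exact hT a b c h1.1 h2.1 h3.1
    · intro a b h
      exact h.2
    · intro a ha b hb h
      exact ⟨h, ha, hb⟩
  obtain ⟨K, hK⟩ := (Set.toFinite S).exists_maximal ⟨K0, hK0⟩
  obtain ⟨hKT, hKB, hKH⟩ := hK.prop
  refine ⟨K, hKT, ?_, hKH⟩
  intro p hp q hq hpq hnadj
  by_contra hcon
  push Not at hcon
  have hno : ∀ r, ¬ (K.Adj p r ∧ K.Adj q r) := by
    rintro r ⟨h1, h2⟩
    exact hcon r (hKB _ _ h1).2 h1 h2
  have hK' : K ⊔ SimpleGraph.edge p q ∈ S := by
    refine ⟨?_, ?_, ?_⟩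
    · intro a b c hab hbc hac
      rw [SimpleGraph.sup_adj, SimpleGraph.edge_adj] at hab hbc hac
      have hne := K.loopless
      rcases hab with hab | ⟨⟨rfl, rfl⟩ | ⟨rfl, rfl⟩, -⟩
      · rcases hbc with hbc | ⟨⟨rfl, rfl⟩ | ⟨rfl, rfl⟩, -⟩
        · rcases hac with hac | ⟨⟨rfl, rfl⟩ | ⟨rfl, rfl⟩, -⟩
          · exact hKT a b c hab hbc hac
          · exact hno b ⟨hab, hbc.symm⟩
          · exact hno b ⟨hbc.symm, hab⟩
        · rcases hac with hac | ⟨⟨h1, h2⟩ | ⟨h1, h2⟩, -⟩
          · exact hno a ⟨hab.symm, hac.symm⟩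
          · exact hab.ne h1
          · exact hpq h2.symm
        · rcases hac with hac | ⟨⟨h1, h2⟩ | ⟨h1, h2⟩, -⟩
          · exact hno a ⟨hac.symm, hab.symm⟩
          · exact hpq h2
          · exact hab.ne h1
      · rcases hbc with hbc | ⟨⟨h1, h2⟩ | ⟨h1, h2⟩, -⟩
        · rcases hac with hac | ⟨⟨h1, h2⟩ | ⟨h1, h2⟩, -⟩
          · exact hno c ⟨hac, hbc⟩
          · exact hbc.ne h2.symm
          · exact hpq h1
        · exact hpq h1.symm
        · rcases hac with hac | ⟨⟨h1', h2'⟩ | ⟨h1', h2'⟩, -⟩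
          · exact hac.ne h2.symm
          · exact hpq (h2.symm.trans h2')
          · exact hpq h1'
      · rcases hbc with hbc | ⟨⟨h1, h2⟩ | ⟨h1, h2⟩, -⟩
        · rcases hac with hac | ⟨⟨h1, h2⟩ | ⟨h1, h2⟩, -⟩
          · exact hno c ⟨hbc, hac⟩
          · exact hpq h1.symm
          · exact hbc.ne h2.symm
        · rcases hac with hac | ⟨⟨h1', h2'⟩ | ⟨h1', h2'⟩, -⟩
          · exact hac.ne h2.symm
          · exact hpq h1'.symm
          · exact hpq (h2'.symm.trans h2)
        · exact hpq h1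
    · intro a b hab
      rw [SimpleGraph.sup_adj, SimpleGraph.edge_adj] at hab
      rcases hab with hab | ⟨⟨rfl, rfl⟩ | ⟨rfl, rfl⟩, -⟩
      · exact hKB a b hab
      · exact ⟨hp, hq⟩
      · exact ⟨hq, hp⟩
    · intro a ha b hb hab
      exact Or.inl (hKH a ha b hb hab)
  have hle := hK.le_of_ge hK' le_sup_left
  exact hnadj (hle (by
    rw [SimpleGraph.sup_adj, SimpleGraph.edge_adj]
    exact Or.inr ⟨Or.inl ⟨rfl, rfl⟩, hpq⟩))

/-- a maximal triangle-free graph without large independent sets contains a 5-cycle -/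
theorem exists_C5 (hT : TF H) (hM : Mx H B) {n : ℕ} (hn : 0 < n) (hB : 2 * n ≤ B.card)
    (hα : ∀ I ⊆ B, (∀ a ∈ I, ∀ b ∈ I, ¬ H.Adj a b) → I.card < n) :
    ∃ z0 z1 z2 z3 z4, C5 H B z0 z1 z2 z3 z4 := by
  classical
  obtain ⟨v, hv⟩ : B.Nonempty := by
    rw [← card_pos]
    omega
  have h1 := hα (B.filter (fun w => H.Adj v w)) (filter_subset _ _) (by
    intro a ha b hb hab
    rw [mem_filter] at ha hb
    exact hT _ _ _ ha.2 hab hb.2)
  have h2 := card_filter_add_card_filter_not (s := B) (fun w => H.Adj v w)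
  by_cases h3 : ∀ a ∈ B.filter (fun w => ¬ H.Adj v w), ∀ b ∈ B.filter (fun w => ¬ H.Adj v w),
      ¬ H.Adj a b
  · have h4 := hα _ (filter_subset _ _) h3
    omega
  · push Not at h3
    obtain ⟨x, hx, y, hy, hxy⟩ := h3
    rw [mem_filter] at hx hy
    have hxv : v ≠ x := fun h => hy.2 (h ▸ hxy)
    have hyv : v ≠ y := fun h => hx.2 (h ▸ hxy.symm)
    obtain ⟨a, ha, hva, hxa⟩ := hM v hv x hx.1 hxv hx.2
    obtain ⟨b, hb, hvb, hyb⟩ := hM v hv y hy.1 hyv hy.2
    exact ⟨v, a, x, y, b, hv, ha, hx.1, hy.1, hb, hva, hxa.symm, hxy, hyb, hvb.symm⟩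

/-- discharging -/
theorem discharge (h1 : ∀ v ∈ A, 2 ≤ dg G A v)
    (h2 : ∀ u ∈ A, ∀ v ∈ nb G A u, dg G A u = 2 → dg G A v = 2 → False)
    (h3 : ∀ u ∈ A, ∀ v ∈ nb G A u, dg G A u = 3 → dg G A v = 2 → False)
    (h4 : ∀ u ∈ A, dg G A u = 4 → ((nb G A u).filter (fun v => dg G A v = 2)).card ≤ 1)
    (h5 : ∀ u ∈ A, dg G A u = 5 → ((nb G A u).filter (fun v => dg G A v = 2)).card ≤ 3) :
    3 * A.card ≤ D G A := by
  classical
  have hsw : ∑ v ∈ A, ((nb G A v).filter (fun w => dg G A w = 2)).card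
      = ∑ v ∈ A, (if dg G A v = 2 then 2 else 0) := by
    have e1 : ∀ v ∈ A, ((nb G A v).filter (fun w => dg G A w = 2)).card
        = ∑ w ∈ A, if G.Adj v w ∧ dg G A w = 2 then 1 else 0 := by
      intro v _
      rw [← card_filter]
      congr 1
      ext w
      rw [mem_filter, mem_filter, mem_nb]
      tauto
    rw [sum_congr rfl e1, sum_comm]
    refine sum_congr rfl fun w hw => ?_
    by_cases h : dg G A w = 2
    · rw [if_pos h, ← card_filter]
      have e2 : A.filter (fun v => G.Adj v w ∧ dg G A w = 2) = nb G A w := by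
        ext v
        rw [mem_filter, mem_nb]
        constructor
        · rintro ⟨hv, hadj, _⟩
          exact ⟨hv, hadj.symm⟩
        · rintro ⟨hv, hadj⟩
          exact ⟨hv, hadj.symm, h⟩
      rw [e2]
      exact h
    · rw [if_neg h]
      refine sum_eq_zero fun v _ => ?_
      rw [if_neg (fun h' => h h'.2)]
  have key : ∀ v ∈ A, 6 + ((nb G A v).filter (fun w => dg G A w = 2)).card
      ≤ 2 * dg G A v + (if dg G A v = 2 then 2 else 0) := by
    intro v hv
    have hle : ((nb G A v).filter (fun w => dg G A w = 2)).card ≤ dg G A v :=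
      card_le_card (filter_subset _ _)
    have hd := h1 v hv
    have hz : (dg G A v = 2 ∨ dg G A v = 3) →
        ((nb G A v).filter (fun w => dg G A w = 2)).card = 0 := by
      intro h
      rw [card_eq_zero, filter_eq_empty_iff]
      intro w hw hw2
      rcases h with h | h
      · exact h2 v hv w hw h hw2
      · exact h3 v hv w hw h hw2
    have : dg G A v = 2 ∨ dg G A v = 3 ∨ dg G A v = 4 ∨ dg G A v = 5 ∨ 6 ≤ dg G A v := by omega
    rcases this with h | h | h | h | h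
    · rw [if_pos h, hz (Or.inl h), h]
    · rw [hz (Or.inr h), h]
      simp
    · have := h4 v hv h
      rw [if_neg (by omega)]
      omega
    · have := h5 v hv h
      rw [if_neg (by omega)]
      omega
    · rw [if_neg (by omega)]
      omega
  have h6 := sum_le_sum key
  rw [sum_add_distrib, sum_add_distrib, hsw, sum_const, smul_eq_mul, ← mul_sum] at h6
  unfold D
  omega

/-- the induction -/
theorem main_ind [Fintype W] [Nonempty W]
    (hmad : ∀ A : Finset V, A.Nonempty → D G A < 3 * A.card) (n : ℕ) :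
    ∀ A : Finset V, A.card = n → ∀ H : SimpleGraph W, TF H → ∀ B : Finset W,
      2 * A.card + D G A ≤ 2 * B.card → EmbIn G A H B := by
  classical
  induction n using Nat.strong_induction_on with
  | _ n IH =>
  intro A hAn H0 hT0 B hB
  rcases A.eq_empty_or_nonempty with rfl | hA
  · exact ⟨fun _ => Classical.arbitrary W, by simp, by simp, by simp⟩
  obtain ⟨H, hT, hM, hH⟩ := exists_max hT0 B
  suffices h : EmbIn G A H B by
    obtain ⟨f, hf1, hf2, hf3⟩ := h
    exact ⟨f, hf1, hf2, fun a ha b hb hab h' => hf3 a ha b hb hab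
      (hH _ (hf2 a ha) _ (hf2 b hb) h')⟩
  have ih : ∀ A' : Finset V, A'.card < A.card → ∀ B' : Finset W,
      2 * A'.card + D G A' ≤ 2 * B'.card → EmbIn G A' H B' :=
    fun A' hA' B' hB' => IH A'.card (hAn ▸ hA') A' rfl H hT B' hB'
  have hApos : 0 < A.card := card_pos.2 hA
  -- large independent sets
  by_cases hα : ∃ I ⊆ B, (∀ a ∈ I, ∀ b ∈ I, ¬ H.Adj a b) ∧ A.card ≤ I.card
  · obtain ⟨I, hI, hi, hc⟩ := hα
    exact emb_indep hI hi hc
  have hα' : ∀ I ⊆ B, (∀ a ∈ I, ∀ b ∈ I, ¬ H.Adj a b) → I.card < A.card := by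
    intro I hI hi
    by_contra hc
    exact hα ⟨I, hI, hi, by omega⟩
  -- vertices of degree at most one
  by_cases hdeg : ∀ v ∈ A, 2 ≤ dg G A v
  swap
  · push Not at hdeg
    obtain ⟨u, hu, hu1⟩ := hdeg
    have hnotind : ∃ a ∈ B, ∃ b ∈ B, H.Adj a b := by
      by_contra hcon
      push Not at hcon
      have := hα' B Subset.rfl hcon
      omega
    obtain ⟨z, hz, z', hz', hzz⟩ := hnotind
    by_cases hu0 : dg G A u = 0
    · refine star_reduce (X := ∅) (Z := {z}) hu (empty_subset _) (by simp) (by simp)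
        (singleton_subset_iff.2 hz) (by simp) hB ih ?_
      intro f hf1 hf2
      refine ⟨z, hz, fun _ => z, ?_, ?_, by simp, by simp⟩
      · intro b hb h
        exact (mem_sdiff.1 (hf2 b hb)).2 (h ▸ mem_singleton_self _)
      · intro a ha
        unfold dg at hu0
        rw [card_eq_zero] at hu0
        rw [hu0] at ha
        exact absurd ha (notMem_empty _)
    · have hu1' : (nb G A u).card = 1 := by
        unfold dg at hu0 hu1
        omega
      obtain ⟨x, hx⟩ := card_eq_one.1 hu1'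
      refine star_reduce (X := ∅) (Z := {z, z'}) hu (empty_subset _) (by simp) (by simp)
        (insert_subset_iff.2 ⟨hz, singleton_subset_iff.2 hz'⟩) ?_ hB ih ?_
      · have : ({z, z'} : Finset W).card ≤ 2 := card_le_two
        unfold dg
        rw [hu1', card_empty]
        omega
      intro f hf1 hf2
      have hyy : ∃ y ∈ ({z, z'} : Finset W), ¬ H.Adj (f x) y := by
        by_cases h : H.Adj (f x) z
        · exact ⟨z', by simp, hT _ _ _ h hzz⟩
        · exact ⟨z, by simp, h⟩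
      obtain ⟨y, hy, hxy⟩ := hyy
      have hyB : y ∈ B := by
        rw [mem_insert, mem_singleton] at hy
        rcases hy with rfl | rfl
        · exact hz
        · exact hz'
      refine ⟨y, hyB, fun _ => y, ?_, ?_, by simp, by simp⟩
      · intro b hb h
        exact (mem_sdiff.1 (hf2 b hb)).2 (h ▸ hy)
      · intro a ha _
        rw [hx, mem_singleton] at ha
        rw [ha]
        exact hxy
  have hD2 : 2 * A.card ≤ D G A := by
    have h1 : A.card • 2 ≤ ∑ v ∈ A, dg G A v := card_nsmul_le_sum A _ 2 hdeg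
    unfold D
    rw [smul_eq_mul] at h1
    omega
  obtain ⟨z0, z1, z2, z3, z4, hC⟩ := exists_C5 hT hM hApos (by omega) hα'
  by_cases hcl : ∀ p ∈ B, HasCl H z0 z1 z2 z3 z4 p
  · exact emb_classes hT hcl hA hD2 hB
  push Not at hcl
  obtain ⟨p, hp, hpn⟩ := hcl
  obtain ⟨Z, hZB, hZc, hZ⟩ := exists_Z8 hT hM hC hp hpn
  obtain ⟨Y, hYB, hYc, hY⟩ := hC.cov1
  by_contra hno
  have g2 : ∀ u ∈ A, ∀ v ∈ nb G A u, dg G A u = 2 → dg G A v = 2 → False := by
    intro u hu v hv h h'
    exact hno (red1 hT hu hv h' (by omega) hYB hY (by omega) hB ih)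
  have g3 : ∀ u ∈ A, ∀ v ∈ nb G A u, dg G A u = 3 → dg G A v = 2 → False := by
    intro u hu v hv h h'
    exact hno (red1 hT hu hv h' (by omega) hYB hY (by omega) hB ih)
  have gi : ∀ v ∈ A, ∀ v' ∈ A, dg G A v = 2 → dg G A v' = 2 → ¬ G.Adj v v' := by
    intro v hv v' hv' h h' hadj
    exact g2 v hv v' (mem_nb.2 ⟨hv', hadj⟩) h h'
  have g4 : ∀ u ∈ A, dg G A u = 4 → ((nb G A u).filter (fun v => dg G A v = 2)).card ≤ 1 := by
    intro u hu h
    by_contra hcon
    push Not at hcon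
    obtain ⟨v, hv, v', hv', hne⟩ := one_lt_card.1 hcon
    rw [mem_filter] at hv hv'
    exact hno (red2 hT hu hv.1 hv'.1 hne hv.2 hv'.2
      (gi v (mem_nb.1 hv.1).1 v' (mem_nb.1 hv'.1).1 hv.2 hv'.2) h hZB hZ hZc hB ih)
  have g5 : ∀ u ∈ A, dg G A u = 5 → ((nb G A u).filter (fun v => dg G A v = 2)).card ≤ 3 := by
    intro u hu h
    by_contra hcon
    push Not at hcon
    obtain ⟨X, hXs, hX4⟩ := exists_subset_card_eq (show 4 ≤ _ from hcon)
    have hX : X ⊆ nb G A u := hXs.trans (filter_subset _ _)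
    have hX2 : ∀ v ∈ X, dg G A v = 2 := fun v hv => (mem_filter.1 (hXs hv)).2
    have hXA : ∀ v ∈ X, v ∈ A := fun v hv => (mem_nb.1 (hX hv)).1
    have hXi : ∀ v ∈ X, ∀ v' ∈ X, ¬ G.Adj v v' := fun v hv v' hv' =>
      gi v (hXA v hv) v' (hXA v' hv') (hX2 v hv) (hX2 v' hv')
    have hD : 2 * A.card + 6 ≤ D G A := by
      obtain ⟨v, hv⟩ : X.Nonempty := by
        rw [← card_pos]
        omega
      obtain ⟨c, hc, hcu, -⟩ := other (G := G) (A := A) (u := u) (v := v)
        (mem_nb.2 ⟨hu, (mem_nb.1 (hX hv)).2.symm⟩) (hX2 v hv)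
      have hcA : c ∈ A := (mem_nb.1 hc).1
      have hvc : v ∈ nb G A c := mem_nb.2 ⟨hXA v hv, (mem_nb.1 hc).2.symm⟩
      have hc4 : 4 ≤ dg G A c := by
        have h1 := hdeg c hcA
        have h2 : dg G A c ≠ 2 := fun h' => g2 c hcA v hvc h' (hX2 v hv)
        have h3 : dg G A c ≠ 3 := fun h' => g3 c hcA v hvc h' (hX2 v hv)
        omega
      have hcE : c ∈ A.erase u := mem_erase.2 ⟨hcu, hcA⟩
      have s1 : D G A = dg G A u + ∑ v ∈ A.erase u, dg G A v := (add_sum_erase A _ hu).symm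
      have s2 : ∑ v ∈ A.erase u, dg G A v
          = dg G A c + ∑ v ∈ (A.erase u).erase c, dg G A v := (add_sum_erase _ _ hcE).symm
      have s3 : ((A.erase u).erase c).card • 2 ≤ ∑ v ∈ (A.erase u).erase c, dg G A v :=
        card_nsmul_le_sum ((A.erase u).erase c) _ 2
        (fun v hv => hdeg v (mem_of_mem_erase (mem_of_mem_erase hv)))
      rw [smul_eq_mul] at s3
      have c1 := card_erase_add_one hu
      have c2 := card_erase_add_one hcE
      obtain ⟨m, hm⟩ := D_even G A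
      omega
    exact hno (red3 hT hu hX hX4 hX2 hXi h hZB hZ hZc hB hα' hD ih)
  have := discharge hdeg g2 g3 g4 g5
  have := hmad A hA
  omega

end Pool.Agent.Lib_helper53.TriMad
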