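import Pool.Agent.Lib_helper53.TriMad.Cyc

/-!
# Reducible configurations (MP_c6effb_co)
-/

set_option autoImplicit false
set_option linter.unusedSectionVars false

namespace Pool.Agent.Lib_helper53.TriMad

open Finset

variable {V W : Type} [DecidableEq V] [DecidableEq W]
variable {G : SimpleGraph V} {A : Finset V} {H : SimpleGraph W} {B : Finset W}

/-- removing a vertex `u` and an independent set `X` of neighbours of degree two -/
theorem star_reduce {u : V} {X : Finset V} {Z : Finset W}
    (hu : u ∈ A) (hX : X ⊆ nb G A u) (hX2 : ∀ v ∈ X, dg G A v = 2)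
    (hXi : ∀ v ∈ X, ∀ v' ∈ X, ¬ G.Adj v v') (hZB : Z ⊆ B)
    (hZ : Z.card ≤ 1 + dg G A u + 2 * X.card) (hB : 2 * A.card + D G A ≤ 2 * B.card)
    (ih : ∀ A' : Finset V, A'.card < A.card → ∀ B' : Finset W,
      2 * A'.card + D G A' ≤ 2 * B'.card → EmbIn G A' H B')
    (hext : ∀ f : V → W, Set.InjOn f ↑(A \ insert u X) → (∀ a ∈ A \ insert u X, f a ∈ B \ Z) →
      ∃ y ∈ B, ∃ w : V → W, (∀ b ∈ A \ insert u X, f b ≠ y) ∧
        (∀ a ∈ nb G A u, a ∉ X → ¬ H.Adj (f a) y) ∧ Set.InjOn w X ∧
        ∀ v ∈ X, w v ∈ B ∧ (∀ b ∈ A \ insert u X, f b ≠ w v) ∧ w v ≠ y ∧ ¬ H.Adj y (w v) ∧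
          ∀ c ∈ nb G A v, c ≠ u → ¬ H.Adj (f c) (w v)) : EmbIn G A H B := by
  classical
  have huX : u ∉ X := fun h => (mem_nb.1 (hX h)).2.ne rfl
  have hXA : X ⊆ A.erase u := fun v hv =>
    mem_erase.2 ⟨fun h => huX (h ▸ hv), (mem_nb.1 (hX hv)).1⟩
  have hA' : A \ insert u X = (A.erase u) \ X := by
    ext a
    simp only [mem_sdiff, mem_insert, mem_erase]
    tauto
  have h1 := D_erase (G := G) hu
  have h2 := D_sdiff (G := G) X hXA hXi
  have h3 : ∑ v ∈ X, dg G (A.erase u) v = X.card := by
    rw [card_eq_sum_ones]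
    refine sum_congr rfl fun v hv => ?_
    have h4 := hX2 v hv
    rw [dg_erase_adj hu (mem_nb.1 (hX hv)).2.symm] at h4
    omega
  rw [h3] at h2
  have hc1 : (A.erase u).card + 1 = A.card := card_erase_add_one hu
  have hc2 : ((A.erase u) \ X).card + X.card = (A.erase u).card := card_sdiff_add_card_eq_card hXA
  have hc3 : (B \ Z).card + Z.card = B.card := card_sdiff_add_card_eq_card hZB
  obtain ⟨f, hf1, hf2, hf3⟩ := ih (A \ insert u X) (by rw [hA']; omega) (B \ Z)
    (by rw [hA']; omega)
  obtain ⟨y, hy, w, hfy, huy, hw, hwv⟩ := hext f hf1 hf2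
  have g1 : ∀ a ∈ X, (if a ∈ X then w a else if a = u then y else f a) = w a :=
    fun a ha => if_pos ha
  have g2 : (if u ∈ X then w u else if u = u then y else f u) = y := by
    rw [if_neg huX, if_pos rfl]
  have g3 : ∀ a, a ∉ X → a ≠ u → (if a ∈ X then w a else if a = u then y else f a) = f a := by
    intro a ha hau
    rw [if_neg ha, if_neg hau]
  have hm : ∀ a ∈ A, a ∉ X → a ≠ u → a ∈ A \ insert u X := by
    intro a ha h1 h2
    rw [mem_sdiff, mem_insert]
    tauto
  refine ⟨fun a => if a ∈ X then w a else if a = u then y else f a, ?_, ?_, ?_⟩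
  · intro a ha b hb hab
    have ha0 : a ∈ A := ha
    have hb0 : b ∈ A := hb
    have hab' : (if a ∈ X then w a else if a = u then y else f a)
      = (if b ∈ X then w b else if b = u then y else f b) := hab
    by_cases haX : a ∈ X
    · rw [g1 a haX] at hab'
      by_cases hbX : b ∈ X
      · rw [g1 b hbX] at hab'
        exact hw haX hbX hab'
      · by_cases hbu : b = u
        · subst hbu
          rw [g2] at hab'
          exact absurd hab' (hwv a haX).2.2.1
        · rw [g3 b hbX hbu] at hab'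
          exact absurd hab'.symm ((hwv a haX).2.1 b (hm b hb0 hbX hbu))
    · by_cases hau : a = u
      · subst hau
        rw [g2] at hab'
        by_cases hbX : b ∈ X
        · rw [g1 b hbX] at hab'
          exact absurd hab'.symm (hwv b hbX).2.2.1
        · by_cases hbu : b = a
          · exact hbu.symm
          · rw [g3 b hbX hbu] at hab'
            exact absurd hab'.symm (hfy b (hm b hb0 hbX hbu))
      · rw [g3 a haX hau] at hab'
        by_cases hbX : b ∈ X
        · rw [g1 b hbX] at hab'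
          exact absurd hab' ((hwv b hbX).2.1 a (hm a ha0 haX hau))
        · by_cases hbu : b = u
          · subst hbu
            rw [g2] at hab'
            exact absurd hab' (hfy a (hm a ha0 haX hau))
          · rw [g3 b hbX hbu] at hab'
            exact hf1 (mem_coe.2 (hm a ha0 haX hau)) (mem_coe.2 (hm b hb0 hbX hbu)) hab'
  · intro a ha
    show (if a ∈ X then w a else if a = u then y else f a) ∈ B
    by_cases haX : a ∈ X
    · rw [g1 a haX]
      exact (hwv a haX).1
    · by_cases hau : a = u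
      · subst hau
        rw [g2]
        exact hy
      · rw [g3 a haX hau]
        exact (mem_sdiff.1 (hf2 a (hm a ha haX hau))).1
  · intro a ha b hb hab
    show ¬ H.Adj (if a ∈ X then w a else if a = u then y else f a)
      (if b ∈ X then w b else if b = u then y else f b)
    by_cases haX : a ∈ X
    · rw [g1 a haX]
      by_cases hbX : b ∈ X
      · exact absurd hab (hXi a haX b hbX)
      · by_cases hbu : b = u
        · subst hbu
          rw [g2]
          exact fun h => (hwv a haX).2.2.2.1 h.symm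
        · rw [g3 b hbX hbu]
          exact fun h => (hwv a haX).2.2.2.2 b (mem_nb.2 ⟨hb, hab⟩) hbu h.symm
    · by_cases hau : a = u
      · subst hau
        rw [g2]
        by_cases hbX : b ∈ X
        · rw [g1 b hbX]
          exact (hwv b hbX).2.2.2.1
        · by_cases hbu : b = a
          · exact absurd hbu hab.ne'
          · rw [g3 b hbX hbu]
            exact fun h => huy b (mem_nb.2 ⟨hb, hab⟩) hbX h.symm
      · rw [g3 a haX hau]
        by_cases hbX : b ∈ X
        · rw [g1 b hbX]
          exact (hwv b hbX).2.2.2.2 a (mem_nb.2 ⟨ha, hab.symm⟩) hau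
        · by_cases hbu : b = u
          · subst hbu
            rw [g2]
            exact huy a (mem_nb.2 ⟨ha, hab.symm⟩) haX
          · rw [g3 b hbX hbu]
            exact hf3 a (hm a ha haX hau) b (hm b hb hbX hbu) hab

theorem two_pts [Nonempty W] (N : Finset V) (h : N.card ≤ 2) (f : V → W) :
    ∃ x x', ∀ a ∈ N, f a = x ∨ f a = x' := by
  have : N.card = 0 ∨ N.card = 1 ∨ N.card = 2 := by omega
  rcases this with h | h | h
  · rw [card_eq_zero] at h
    subst h
    exact ⟨Classical.arbitrary W, Classical.arbitrary W, fun a ha => absurd ha (notMem_empty _)⟩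
  · obtain ⟨a, rfl⟩ := card_eq_one.1 h
    exact ⟨f a, f a, fun b hb => Or.inl (by rw [mem_singleton.1 hb])⟩
  · obtain ⟨a, b, -, rfl⟩ := card_eq_two.1 h
    refine ⟨f a, f b, fun c hc => ?_⟩
    rw [mem_insert, mem_singleton] at hc
    rcases hc with rfl | rfl
    · exact Or.inl rfl
    · exact Or.inr rfl

theorem other {u v : V} (hu : u ∈ nb G A v) (h : dg G A v = 2) :
    ∃ c, c ∈ nb G A v ∧ c ≠ u ∧ ∀ c' ∈ nb G A v, c' ≠ u → c' = c := by
  unfold dg at h
  obtain ⟨a, b, hab, hn⟩ := card_eq_two.1 h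
  rw [hn] at hu ⊢
  rw [mem_insert, mem_singleton] at hu
  rcases hu with rfl | rfl
  · refine ⟨b, by simp, hab.symm, ?_⟩
    intro c hc hcu
    rw [mem_insert, mem_singleton] at hc
    tauto
  · refine ⟨a, by simp, hab, ?_⟩
    intro c hc hcu
    rw [mem_insert, mem_singleton] at hc
    tauto

/-- configurations (2) and (3) -/
theorem red1 [Nonempty W] (hT : TF H) {u v : V} {Z : Finset W} (hu : u ∈ A) (hv : v ∈ nb G A u)
    (hv2 : dg G A v = 2) (hu3 : dg G A u ≤ 3) (hZB : Z ⊆ B) (hc : Cov1 H Z)
    (hZ : Z.card ≤ 3 + dg G A u) (hB : 2 * A.card + D G A ≤ 2 * B.card)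
    (ih : ∀ A' : Finset V, A'.card < A.card → ∀ B' : Finset W,
      2 * A'.card + D G A' ≤ 2 * B'.card → EmbIn G A' H B') : EmbIn G A H B := by
  refine star_reduce (X := {v}) (Z := Z) hu (singleton_subset_iff.2 hv) ?_ ?_ hZB ?_ hB ih ?_
  · intro v' hv'
    rw [mem_singleton.1 hv']
    exact hv2
  · intro a ha b hb hab
    rw [mem_singleton] at ha hb
    subst ha
    subst hb
    exact hab.ne rfl
  · rw [card_singleton]
    omega
  · intro f hf1 hf2
    obtain ⟨x, x', hx⟩ := two_pts ((nb G A u).erase v) (by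
      have := card_erase_add_one hv
      unfold dg at hu3
      omega) f
    obtain ⟨y, hyZ, hxy, hxy'⟩ := hc _ _ (ind_nb hT x) (ind_nb hT x')
    obtain ⟨c, -, -, hc'⟩ := other (G := G) (A := A) (u := u) (v := v)
      (mem_nb.2 ⟨hu, (mem_nb.1 hv).2.symm⟩) hv2
    obtain ⟨w0, hw0, hw1, hw2, hw3⟩ := hc.star hT y (f c)
    refine ⟨y, hZB hyZ, fun _ => w0, ?_, ?_, ?_, ?_⟩
    · intro b hb h
      exact (mem_sdiff.1 (hf2 b hb)).2 (h ▸ hyZ)
    · intro a ha hav
      rw [mem_singleton] at hav
      rcases hx a (mem_erase.2 ⟨hav, ha⟩) with h | h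
      · rw [h]
        exact hxy
      · rw [h]
        exact hxy'
    · intro a ha b hb _
      have ha' : a ∈ ({v} : Finset V) := ha
      have hb' : b ∈ ({v} : Finset V) := hb
      rw [mem_singleton] at ha' hb'
      rw [ha', hb']
    · intro v' hv'
      rw [mem_singleton] at hv'
      subst hv'
      refine ⟨hZB hw0, ?_, hw1, hw2, ?_⟩
      · intro b hb h
        exact (mem_sdiff.1 (hf2 b hb)).2 (h ▸ hw0)
      · intro c'' hc'' hne
        rw [hc' c'' hc'' hne]
        exact hw3

/-- configuration (7) -/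
theorem red2 [Nonempty W] (hT : TF H) {u v v' : V} {Z : Finset W} (hu : u ∈ A)
    (hv : v ∈ nb G A u) (hv' : v' ∈ nb G A u) (hne : v ≠ v')
    (hv2 : dg G A v = 2) (hv2' : dg G A v' = 2) (hadj : ¬ G.Adj v v')
    (hu4 : dg G A u = 4) (hZB : Z ⊆ B) (hc : Cov2 H Z)
    (hZ : Z.card ≤ 8) (hB : 2 * A.card + D G A ≤ 2 * B.card)
    (ih : ∀ A' : Finset V, A'.card < A.card → ∀ B' : Finset W,
      2 * A'.card + D G A' ≤ 2 * B'.card → EmbIn G A' H B') : EmbIn G A H B := by
  have hXc : ({v, v'} : Finset V).card = 2 := card_pair hne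
  have hXsub : ({v, v'} : Finset V) ⊆ nb G A u := by
    intro a ha
    rw [mem_insert, mem_singleton] at ha
    rcases ha with rfl | rfl
    · exact hv
    · exact hv'
  refine star_reduce (X := {v, v'}) (Z := Z) hu hXsub ?_ ?_ hZB ?_ hB ih ?_
  · intro a ha
    rw [mem_insert, mem_singleton] at ha
    rcases ha with rfl | rfl
    · exact hv2
    · exact hv2'
  · intro a ha b hb hab
    rw [mem_insert, mem_singleton] at ha hb
    rcases ha with rfl | rfl <;> rcases hb with rfl | rfl
    · exact hab.ne rfl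
    · exact hadj hab
    · exact hadj hab.symm
    · exact hab.ne rfl
  · omega
  · intro f hf1 hf2
    obtain ⟨x, x', hx⟩ := two_pts ((nb G A u) \ {v, v'}) (by
      have := card_sdiff_add_card_eq_card hXsub
      unfold dg at hu4
      omega) f
    obtain ⟨y, hyZ, hxy, hxy'⟩ := hc.cov1 _ _ (ind_nb hT x) (ind_nb hT x')
    obtain ⟨c, -, -, hc1⟩ := other (G := G) (A := A) (u := u) (v := v)
      (mem_nb.2 ⟨hu, (mem_nb.1 hv).2.symm⟩) hv2
    obtain ⟨c', -, -, hc2⟩ := other (G := G) (A := A) (u := u) (v := v')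
      (mem_nb.2 ⟨hu, (mem_nb.1 hv').2.symm⟩) hv2'
    obtain ⟨w0, hw0, hw1, hw2, hw3⟩ := hc.cov1.star hT y (f c)
    obtain ⟨r, hr, r', hr', hrr, ⟨hr1, hr2, hr3⟩, hr1', hr2', hr3'⟩ := hc.star hT y (f c')
    obtain ⟨w', hw'Z, hw'0, hw'1, hw'2, hw'3⟩ : ∃ w' ∈ Z, w' ≠ w0 ∧ w' ≠ y ∧ ¬ H.Adj y w' ∧
        ¬ H.Adj (f c') w' := by
      by_cases h : r = w0
      · exact ⟨r', hr', fun h' => hrr (h.trans h'.symm), hr1', hr2', hr3'⟩
      · exact ⟨r, hr, h, hr1, hr2, hr3⟩
    have e1 : (if v = v then w0 else w') = w0 := if_pos rfl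
    have e2 : (if v' = v then w0 else w') = w' := if_neg (fun h => hne h.symm)
    refine ⟨y, hZB hyZ, fun t => if t = v then w0 else w', ?_, ?_, ?_, ?_⟩
    · intro b hb h
      exact (mem_sdiff.1 (hf2 b hb)).2 (h ▸ hyZ)
    · intro a ha hav
      rcases hx a (mem_sdiff.2 ⟨ha, hav⟩) with h | h
      · rw [h]
        exact hxy
      · rw [h]
        exact hxy'
    · intro a ha b hb hab
      have ha' : a ∈ ({v, v'} : Finset V) := ha
      have hb' : b ∈ ({v, v'} : Finset V) := hb
      have hab' : (if a = v then w0 else w') = (if b = v then w0 else w') := hab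
      rw [mem_insert, mem_singleton] at ha' hb'
      rcases ha' with rfl | rfl <;> rcases hb' with rfl | rfl
      · rfl
      · rw [if_pos rfl, if_neg (fun h => hne h.symm)] at hab'
        exact absurd hab'.symm hw'0
      · rw [if_pos rfl, if_neg (fun h => hne h.symm)] at hab'
        exact absurd hab' hw'0
      · rfl
    · intro t ht
      rw [mem_insert, mem_singleton] at ht
      show (if t = v then w0 else w') ∈ B ∧ (∀ b ∈ A \ insert u {v, v'},
        f b ≠ (if t = v then w0 else w')) ∧ (if t = v then w0 else w') ≠ y ∧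
        ¬ H.Adj y (if t = v then w0 else w') ∧ ∀ c ∈ nb G A t, c ≠ u →
          ¬ H.Adj (f c) (if t = v then w0 else w')
      rcases ht with rfl | rfl
      · rw [e1]
        refine ⟨hZB hw0, ?_, hw1, hw2, ?_⟩
        · intro b hb h
          exact (mem_sdiff.1 (hf2 b hb)).2 (h ▸ hw0)
        · intro c'' hc'' hn
          rw [hc1 c'' hc'' hn]
          exact hw3
      · rw [e2]
        refine ⟨hZB hw'Z, ?_, hw'1, hw'2, ?_⟩
        · intro b hb h
          exact (mem_sdiff.1 (hf2 b hb)).2 (h ▸ hw'Z)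
        · intro c'' hc'' hn
          rw [hc2 c'' hc'' hn]
          exact hw'3

/-- configuration (8) -/
theorem red3 [Nonempty W] (hT : TF H) {u : V} {X : Finset V} {Z : Finset W} (hu : u ∈ A)
    (hX : X ⊆ nb G A u) (hX4 : X.card = 4) (hX2 : ∀ v ∈ X, dg G A v = 2)
    (hXi : ∀ v ∈ X, ∀ v' ∈ X, ¬ G.Adj v v')
    (hu5 : dg G A u = 5) (hZB : Z ⊆ B) (hc : Cov2 H Z)
    (hZ : Z.card ≤ 8) (hB : 2 * A.card + D G A ≤ 2 * B.card)
    (hα : ∀ I ⊆ B, (∀ a ∈ I, ∀ b ∈ I, ¬ H.Adj a b) → I.card < A.card)
    (hD : 2 * A.card + 6 ≤ D G A)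
    (ih : ∀ A' : Finset V, A'.card < A.card → ∀ B' : Finset W,
      2 * A'.card + D G A' ≤ 2 * B'.card → EmbIn G A' H B') : EmbIn G A H B := by
  classical
  refine star_reduce (X := X) (Z := Z) hu hX hX2 hXi hZB (by omega) hB ih ?_
  intro f hf1 hf2
  have huX : u ∉ X := fun h => (mem_nb.1 (hX h)).2.ne rfl
  have hXA : insert u X ⊆ A := by
    intro a ha
    rw [mem_insert] at ha
    rcases ha with rfl | ha
    · exact hu
    · exact (mem_nb.1 (hX ha)).1
  have hA'c : (A \ insert u X).card + 5 = A.card := by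
    have := card_sdiff_add_card_eq_card hXA
    rw [card_insert_of_notMem huX] at this
    omega
  set T := B \ (A \ insert u X).image f with hTdef
  have hTc : A.card + 8 ≤ T.card := by
    have h1 : B.card ≤ T.card + ((A \ insert u X).image f).card := by
      have := le_card_sdiff ((A \ insert u X).image f) B
      rw [← hTdef] at this
      omega
    have h2 : ((A \ insert u X).image f).card ≤ (A \ insert u X).card := card_image_le
    omega
  have hTB : T ⊆ B := sdiff_subset
  have hTf : ∀ y ∈ T, ∀ b ∈ A \ insert u X, f b ≠ y := by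
    intro y hy b hb h
    exact (mem_sdiff.1 hy).2 (mem_image.2 ⟨b, hb, h⟩)
  have hZT : Z ⊆ T := by
    intro z hz
    rw [hTdef, mem_sdiff, mem_image]
    refine ⟨hZB hz, ?_⟩
    rintro ⟨b, hb, rfl⟩
    exact (mem_sdiff.1 (hf2 b hb)).2 hz
  -- the fifth neighbour
  obtain ⟨x, hx⟩ : ∃ x, ∀ a ∈ nb G A u, a ∉ X → f a = x := by
    have h1 : ((nb G A u) \ X).card = 1 := by
      have := card_sdiff_add_card_eq_card hX
      unfold dg at hu5
      omega
    obtain ⟨a, ha⟩ := card_eq_one.1 h1
    refine ⟨f a, fun b hb hbX => ?_⟩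
    have : b ∈ (nb G A u) \ X := mem_sdiff.2 ⟨hb, hbX⟩
    rw [ha, mem_singleton] at this
    rw [this]
  have hex : ∀ v ∈ X, ∃ c, ∀ c' ∈ nb G A v, c' ≠ u → c' = c := by
    intro v hv
    obtain ⟨c, -, -, h⟩ := other (G := G) (A := A) (u := u) (v := v)
      (mem_nb.2 ⟨hu, (mem_nb.1 (hX hv)).2.symm⟩) (hX2 v hv)
    exact ⟨c, h⟩
  choose! c hcc using hex
  set Wv : W → V → Finset W := fun y v =>
    T.filter (fun w => w ≠ y ∧ ¬ H.Adj y w ∧ ¬ H.Adj (f (c v)) w) with hWv
  have hW2 : ∀ y v, 2 ≤ (Wv y v).card := by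
    intro y v
    obtain ⟨w, hw, w', hw', hne, h1, h2⟩ := hc.star hT y (f (c v))
    have h3 : ({w, w'} : Finset W) ⊆ Wv y v := by
      intro t ht
      rw [mem_insert, mem_singleton] at ht
      rw [hWv, mem_filter]
      rcases ht with rfl | rfl
      · exact ⟨hZT hw, h1⟩
      · exact ⟨hZT hw', h2⟩
    have := card_le_card h3
    rwa [card_pair hne] at this
  obtain ⟨y, hyT, hxy, hall⟩ : ∃ y ∈ T, ¬ H.Adj x y ∧
      ∀ s : Finset X, s.card ≤ (s.biUnion (fun v => Wv y v)).card := by
    by_contra hcon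
    push Not at hcon
    have hind : ∀ y y', y ∈ T → ¬ H.Adj x y → y' ∈ T → ¬ H.Adj x y' → ¬ H.Adj y y' := by
      intro y y' hy hxy hy' hxy' hadj
      obtain ⟨s, hs⟩ := hcon y hy hxy
      obtain ⟨s', hs'⟩ := hcon y' hy' hxy'
      have big : ∀ (y : W) (s : Finset X),
          (s.biUnion (fun v => Wv y v)).card < s.card → 3 ≤ s.card := by
        intro y s hs
        have hne : s.Nonempty := by
          rw [← card_pos]
          omega
        obtain ⟨v, hv⟩ := hne
        have h1 : Wv y v ⊆ s.biUnion (fun v => Wv y v) :=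
          subset_biUnion_of_mem (fun v : X => Wv y v) hv
        have := card_le_card h1
        have := hW2 y v
        omega
      have h3 := big y s hs
      have h3' := big y' s' hs'
      have hu4 : (s ∪ s').card ≤ 4 := by
        have := card_le_univ (s ∪ s')
        rwa [Fintype.card_coe, hX4] at this
      have hi := card_union_add_card_inter s s'
      have hs4 : s.card ≤ 4 := (card_le_card subset_union_left).trans hu4
      have hs4' : s'.card ≤ 4 := (card_le_card subset_union_right).trans hu4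
      obtain ⟨v, hv⟩ : (s ∩ s').Nonempty := by
        rw [← card_pos]
        omega
      rw [mem_inter] at hv
      have hv1 : (Wv y v).card ≤ 3 := by
        have h1 : Wv y v ⊆ s.biUnion (fun v => Wv y v) :=
          subset_biUnion_of_mem (fun v : X => Wv y v) hv.1
        have := card_le_card h1
        omega
      have hv2 : (Wv y' v).card ≤ 3 := by
        have h1 : Wv y' v ⊆ s'.biUnion (fun v => Wv y' v) :=
          subset_biUnion_of_mem (fun v : X => Wv y' v) hv.2
        have := card_le_card h1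
        omega
      -- `Q`
      have hQ : 9 ≤ (T.filter (fun w => ¬ H.Adj (f (c v)) w)).card := by
        have h1 := card_filter_add_card_filter_not (s := T) (fun w => H.Adj (f (c v)) w)
        have h2 := hα (T.filter (fun w => H.Adj (f (c v)) w)) ((filter_subset _ _).trans hTB)
          (by
            intro a ha b hb hab
            rw [mem_filter] at ha hb
            exact hT _ _ _ ha.2 hab hb.2)
        omega
      have hQs : T.filter (fun w => ¬ H.Adj (f (c v)) w) ⊆ Wv y v ∪ (Wv y' v ∪ {y, y'}) := by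
        intro w hw
        rw [mem_filter] at hw
        rw [mem_union, mem_union, mem_insert, mem_singleton]
        by_cases h1 : w = y
        · exact Or.inr (Or.inr (Or.inl h1))
        · by_cases h2 : w = y'
          · exact Or.inr (Or.inr (Or.inr h2))
          · by_cases h3 : H.Adj y w
            · by_cases h4 : H.Adj y' w
              · exact absurd h4 (hT _ _ _ hadj.symm h3)
              · right
                left
                rw [hWv, mem_filter]
                exact ⟨hw.1, h2, h4, hw.2⟩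
            · left
              rw [hWv, mem_filter]
              exact ⟨hw.1, h1, h3, hw.2⟩
      have h5 := card_le_card hQs
      have h6 := card_union_le (Wv y v) (Wv y' v ∪ {y, y'})
      have h7 := card_union_le (Wv y' v) {y, y'}
      have h8 : ({y, y'} : Finset W).card ≤ 2 := card_le_two
      omega
    obtain ⟨w, hw, h1, h2⟩ := hc.cov1 (fun w => H.Adj x w) (fun w => w ∈ T ∧ ¬ H.Adj x w)
      (ind_nb hT x) (by
        rintro a b hab ⟨ha, hb⟩
        exact hind a b ha.1 ha.2 hb.1 hb.2 hab)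
    exact h2 ⟨hZT hw, h1⟩
  obtain ⟨F, hFi, hF⟩ := (all_card_le_biUnion_card_iff_exists_injective
    (fun v : X => Wv y v)).1 hall
  refine ⟨y, hTB hyT, fun t => if h : t ∈ X then F ⟨t, h⟩ else y, hTf y hyT, ?_, ?_, ?_⟩
  · intro a ha haX
    rw [hx a ha haX]
    exact hxy
  · intro a ha b hb hab
    have ha' : a ∈ X := ha
    have hb' : b ∈ X := hb
    simp only [dif_pos ha', dif_pos hb'] at hab
    exact congrArg Subtype.val (hFi hab)
  · intro v hv
    have h1 := hF ⟨v, hv⟩
    rw [hWv, mem_filter] at h1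
    simp only [dif_pos hv]
    refine ⟨hTB h1.1, hTf _ h1.1, h1.2.1, h1.2.2.1, ?_⟩
    intro c' hc' hne
    rw [hcc v hv c' hc' hne]
    exact h1.2.2.2

end Pool.Agent.Lib_helper53.TriMad
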